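import Pool.Agent.W973.CES.Defs

/-! Project CES: subtask CES-ASG. -/

set_option autoImplicit false

namespace Pool.Agent.W270.CES

open Pool.Agent.W973.CES Pool.Agent.NPC

theorem flat_cons (a : Lit ℕ × Lit ℕ × Lit ℕ) (φ : CNF) :
    flat (a :: φ) = a.1 :: a.2.1 :: a.2.2 :: flat φ := rfl

theorem n3_eq (φ : CNF) : n3 φ = 3 * φ.length := by
  unfold n3
  induction φ with
  | nil => rfl
  | cons a φ ih =>
    rw [flat_cons]
    simp only [List.length_cons]
    rw [ih]
    ring

theorem lits (φ : CNF) : ∀ (c : ℕ) (hc : c < φ.length),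
    lit φ (3 * c) = (φ[c]).1 ∧ lit φ (3 * c + 1) = (φ[c]).2.1 ∧
      lit φ (3 * c + 2) = (φ[c]).2.2 := by
  induction φ with
  | nil => intro c hc; exact absurd hc (Nat.not_lt_zero _)
  | cons a φ ih =>
    intro c hc
    unfold lit at ih ⊢
    rw [flat_cons]
    cases c with
    | zero => exact ⟨rfl, rfl, rfl⟩
    | succ c =>
      have hc' : c < φ.length := Nat.lt_of_succ_lt_succ hc
      obtain ⟨h1, h2, h3⟩ := ih c hc'
      have e0 : 3 * (c + 1) = 3 * c + 1 + 1 + 1 := by ring
      refine ⟨?_, ?_, ?_⟩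
      · rw [e0]
        simpa only [List.getD_cons_succ, List.getElem_cons_succ] using h1
      · rw [e0]
        have : 3 * c + 1 + 1 + 1 + 1 = (3 * c + 1) + 1 + 1 + 1 := by ring
        rw [this]
        simpa only [List.getD_cons_succ, List.getElem_cons_succ] using h2
      · rw [e0]
        have : 3 * c + 1 + 1 + 1 + 2 = (3 * c + 2) + 1 + 1 + 1 := by ring
        rw [this]
        simpa only [List.getD_cons_succ, List.getElem_cons_succ] using h3

theorem asg : S_ASG := by
  classical
  intro φ T h1 h2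
  refine ⟨fun v => decide (T (gv φ v)), ?_⟩
  intro c0 hc0
  obtain ⟨c, hc, rfl⟩ := List.getElem_of_mem hc0
  obtain ⟨k, hk, hT⟩ := h1 c hc
  have hi : 3 * c + k < n3 φ := by
    rw [n3_eq]
    omega
  have h := h2 (3 * c + k) hi hT
  have key : decide (T (gv φ (lit φ (3 * c + k)).2)) = (lit φ (3 * c + k)).1 := by
    have h' : T (gv φ (lit φ (3 * c + k)).2) ↔ (lit φ (3 * c + k)).1 = true := h
    cases hb : (lit φ (3 * c + k)).1 with
    | true =>
      rw [hb] at h'
      exact decide_eq_true (h'.mpr rfl)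
    | false =>
      rw [hb] at h'
      refine decide_eq_false (fun ht => ?_)
      have := h'.mp ht
      exact Bool.false_ne_true this
  obtain ⟨l1, l2, l3⟩ := lits φ c hc
  have hk3 : k = 0 ∨ k = 1 ∨ k = 2 := by omega
  rcases hk3 with rfl | rfl | rfl
  · left
    rw [Nat.add_zero, l1] at key
    exact key
  · right; left
    rw [l2] at key
    exact key
  · right; right
    rw [l3] at key
    exact key

end Pool.Agent.W270.CES
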